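import Pool.Agent.Helper76.DE.StN
import Pool.Agent.Helper77.ND.M_Er

/-!
# Project DE, module Ej (mixing error in the mean over `y`)
-/

set_option autoImplicit false

noncomputable section

namespace Pool.Agent.Helper24.PRD

open Pool.Agent.Helper76.ND Pool.Agent.Helper76.DE Finset

/-- the kernel -/
private def gv_ej (v : ℝ) : ℝ := v * gg v

private lemma gv_nonneg_ej (hPo : StPo) (v : ℝ) : 0 ≤ gv_ej v := (hPo.2.1 v).2.2.1

private lemma gv_le_ej (hPo : StPo) (v : ℝ) : gv_ej v ≤ 1 / 4 := (hPo.2.1 v).2.2.2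

private lemma gv_lo_ej (hPo : StPo) (v : ℝ) (hv : v ≤ 1 / 2) : gv_ej v = 0 := by
  unfold gv_ej; rw [hPo.2.2.1 v hv, mul_zero]

private lemma gv_hi_ej (hPo : StPo) (v : ℝ) (hv : 3 / 2 ≤ v) : gv_ej v = 0 := by
  unfold gv_ej; rw [hPo.2.2.2.1 v hv, mul_zero]

/-- at most two points of a geometric sequence of ratio `1/e` lie in `(1/2, 3/2)` -/
private lemma geo_ej (hPo : StPo) (J : ℕ) (v : ℝ) (hv : 0 < v) :
    ∑ j ∈ range J, gv_ej (v * Real.exp (-(j : ℝ))) ≤ 1 / 2 := by
  classical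
  set A : Finset ℕ := (range J).filter
    (fun j : ℕ => 1 / 2 < v * Real.exp (-(j : ℝ)) ∧ v * Real.exp (-(j : ℝ)) < 3 / 2) with hA
  have h1 : ∑ j ∈ range J, gv_ej (v * Real.exp (-(j : ℝ))) =
      ∑ j ∈ A, gv_ej (v * Real.exp (-(j : ℝ))) := by
    symm
    apply sum_subset (filter_subset _ _)
    intro j hj hjA
    rw [mem_filter, not_and_or] at hjA
    rcases hjA with h | h
    · exact absurd hj h
    · rw [not_and_or] at h
      rcases h with h | h
      · exact gv_lo_ej hPo _ (not_lt.1 h)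
      · exact gv_hi_ej hPo _ (not_lt.1 h)
  have hcard : A.card ≤ 2 := by
    rcases A.eq_empty_or_nonempty with h0 | hne
    · rw [h0]; simp
    · set j0 := A.min' hne with hj0
      have hj0A : j0 ∈ A := A.min'_mem hne
      have hsub : A ⊆ {j0, j0 + 1} := by
        intro j hj
        have hle : j0 ≤ j := A.min'_le j hj
        rw [mem_insert, mem_singleton]
        by_contra hcon
        have h2 : j0 + 2 ≤ j := by omega
        have a := (mem_filter.1 hj0A).2.2
        have b := (mem_filter.1 hj).2.1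
        have h3 : (j0 : ℝ) + 2 ≤ j := by exact_mod_cast h2
        have h4 : Real.exp (-(j : ℝ)) * Real.exp 2 ≤ Real.exp (-(j0 : ℝ)) := by
          rw [← Real.exp_add]
          apply Real.exp_le_exp.2
          linarith
        have h5 : (3 : ℝ) ≤ Real.exp 2 := by
          have := Real.add_one_le_exp (2 : ℝ)
          linarith
        have h6 : 0 < Real.exp (-(j : ℝ)) := Real.exp_pos _
        have h7 : Real.exp (-(j : ℝ)) * 3 ≤ Real.exp (-(j0 : ℝ)) :=
          le_trans (mul_le_mul_of_nonneg_left h5 h6.le) h4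
        have h8 : v * (Real.exp (-(j : ℝ)) * 3) ≤ v * Real.exp (-(j0 : ℝ)) :=
          mul_le_mul_of_nonneg_left h7 hv.le
        linarith
      refine (card_le_card hsub).trans ?_
      exact card_le_two
  rw [h1]
  calc ∑ j ∈ A, gv_ej (v * Real.exp (-(j : ℝ))) ≤ ∑ j ∈ A, (1 / 4 : ℝ) :=
        sum_le_sum fun j _ => gv_le_ej hPo _
    _ = (A.card : ℝ) * (1 / 4) := by rw [sum_const, nsmul_eq_mul]
    _ ≤ 2 * (1 / 4) := by
        have : (A.card : ℝ) ≤ 2 := by exact_mod_cast hcard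
        linarith
    _ = 1 / 2 := by norm_num

/-- a periodic weight on `[w, 2w]` -/
private lemma per_ej (hPe : StPe) (G : ℕ → ℝ) (P Z : ℕ) (w : ℝ) (hw : 1 ≤ w)
    (hG : ∀ M, 0 ≤ G M) (hper : ∀ M, G (M + P) = G M) (hP : 1 ≤ P) :
    ∑ M ∈ (Icc 1 Z).filter (fun M : ℕ => w ≤ M ∧ (M : ℝ) ≤ 2 * w), G M / M ≤
      ((w + 1) / P + 1) / w * ∑ M ∈ range P, G M := by
  have hw0 : 0 < w := by linarith
  have hP0 : (0 : ℝ) < P := by exact_mod_cast hP
  have hS0 : 0 ≤ ∑ M ∈ range P, G M := sum_nonneg fun M _ => hG M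
  have hle : ⌈w⌉₊ ≤ ⌊2 * w⌋₊ + 1 := by
    have h1 : (⌈w⌉₊ : ℝ) < w + 1 := Nat.ceil_lt_add_one hw0.le
    have h2 : 2 * w < ⌊2 * w⌋₊ + 1 := Nat.lt_floor_add_one (2 * w)
    have h3 : (⌈w⌉₊ : ℝ) < ((⌊2 * w⌋₊ + 1 + 1 : ℕ) : ℝ) := by push_cast; linarith
    have h4 : ⌈w⌉₊ < ⌊2 * w⌋₊ + 1 + 1 := by exact_mod_cast h3
    omega
  calc ∑ M ∈ (Icc 1 Z).filter (fun M : ℕ => w ≤ M ∧ (M : ℝ) ≤ 2 * w), G M / M
      ≤ ∑ M ∈ (Icc 1 Z).filter (fun M : ℕ => w ≤ M ∧ (M : ℝ) ≤ 2 * w), G M / w := by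
        refine sum_le_sum fun M hM => ?_
        exact div_le_div_of_nonneg_left (hG M) hw0 (mem_filter.1 hM).2.1
    _ ≤ ∑ M ∈ Ico ⌈w⌉₊ (⌊2 * w⌋₊ + 1), G M / w := by
        apply sum_le_sum_of_subset_of_nonneg
        · intro M hM
          have h := (mem_filter.1 hM).2
          rw [mem_Ico]
          exact ⟨Nat.ceil_le.2 h.1, Nat.lt_succ_of_le (Nat.le_floor h.2)⟩
        · intro M _ _; exact div_nonneg (hG M) hw0.le
    _ = (∑ M ∈ Ico ⌈w⌉₊ (⌊2 * w⌋₊ + 1), G M) / w := by rw [sum_div]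
    _ ≤ ((((⌊2 * w⌋₊ + 1 : ℕ) : ℝ) - (⌈w⌉₊ : ℕ)) / P + 1) * (∑ M ∈ range P, G M) / w := by
        apply div_le_div_of_nonneg_right _ hw0.le
        exact hPe.2 G P _ _ hP hG hper hle
    _ ≤ ((w + 1) / P + 1) * (∑ M ∈ range P, G M) / w := by
        apply div_le_div_of_nonneg_right _ hw0.le
        apply mul_le_mul_of_nonneg_right _ hS0
        have h1 : (⌊2 * w⌋₊ : ℝ) ≤ 2 * w := Nat.floor_le (by positivity)
        have h2 : w ≤ ⌈w⌉₊ := Nat.le_ceil w
        have h3 : ((⌊2 * w⌋₊ + 1 : ℕ) : ℝ) - (⌈w⌉₊ : ℕ) ≤ w + 1 := by push_cast; linarith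
        have := div_le_div_of_nonneg_right h3 hP0.le
        linarith
    _ = ((w + 1) / P + 1) / w * ∑ M ∈ range P, G M := by ring

/-- the error for one `(t, k)` -/
private def erj_ej (m k t : ℕ) : ℝ := if m ≤ k then 3 * Del m k t else 3 * q t k

private lemma erj_nonneg_ej (m k t : ℕ) : 0 ≤ erj_ej m k t := by
  unfold erj_ej
  split_ifs
  · exact mul_nonneg (by norm_num) (Del_nonneg _ _ _)
  · exact mul_nonneg (by norm_num) (q_nonneg _ _)

private lemma row_ej (m t : ℕ) : ∑ k ∈ range (t + 1), erj_ej m k t ≤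
    3 * ∑ k ∈ Icc m t, Del m k t + 3 * ∑ k ∈ range m, q t k := by
  have h1 : ∀ k ∈ range (t + 1), erj_ej m k t =
      (if m ≤ k then 3 * Del m k t else 0) + (if k < m then 3 * q t k else 0) := by
    intro k _
    unfold erj_ej
    by_cases h : m ≤ k
    · rw [if_pos h, if_pos h, if_neg (not_lt.2 h), add_zero]
    · rw [if_neg h, if_neg h, if_pos (not_le.1 h), zero_add]
  rw [sum_congr rfl h1, sum_add_distrib, ← sum_filter, ← sum_filter]
  apply add_le_add
  · rw [mul_sum]
    apply sum_le_sum_of_subset_of_nonneg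
    · intro k hk
      rw [mem_filter, mem_range] at hk
      rw [mem_Icc]; omega
    · intro k _ _
      exact mul_nonneg (by norm_num) (Del_nonneg _ _ _)
  · rw [mul_sum]
    apply sum_le_sum_of_subset_of_nonneg
    · intro k hk
      exact mem_range.2 (mem_filter.1 hk).2
    · intro k _ _
      exact mul_nonneg (by norm_num) (q_nonneg _ _)

/-- the sum over `M` for one `(t, k)` with `3 ^ k ≤ 4 w` -/
private lemma cell_ej (hNs : StNs) (hPe : StPe) (m k t Z : ℕ) (w : ℝ) (hw : 1 ≤ w)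
    (hmw : (3 : ℝ) ^ m ≤ w) (hkw : (3 : ℝ) ^ k ≤ 4 * w) :
    ∑ M ∈ (Icc 1 Z).filter (fun M : ℕ => w ≤ M ∧ (M : ℝ) ≤ 2 * w),
      |3 ^ k * nt k t M - q t k * (3 ^ m * pim m M)| / M ≤ 2 * erj_ej m k t := by
  obtain ⟨_, hnt, hpi, _, hsn, hsp, _⟩ := hNs
  have hw0 : 0 < w := by linarith
  have h3 : (0 : ℝ) < 3 ^ k := by positivity
  have h3m : (0 : ℝ) < 3 ^ m := by positivity
  unfold erj_ej
  split_ifs with hmk
  · have h := per_ej hPe (fun M => 3 ^ k * |nt k t M - q t k * pim m M / 3 ^ (k - m)|)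
      (3 ^ k) Z w hw (fun M => by positivity) (fun M => ?_) (Nat.one_le_pow _ _ (by norm_num))
    · refine le_trans (le_of_eq ?_) (le_trans h ?_)
      · refine sum_congr rfl fun M _ => ?_
        have : (3 : ℝ) ^ k * nt k t M - q t k * (3 ^ m * pim m M) =
            3 ^ k * (nt k t M - q t k * pim m M / 3 ^ (k - m)) := by
          have h5 : (3 : ℝ) ^ k = 3 ^ m * 3 ^ (k - m) := by rw [← pow_add]; congr 1; omega
          rw [mul_sub, h5]
          have h6 : (3 : ℝ) ^ (k - m) ≠ 0 := by positivity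
          field_simp
        rw [this, abs_mul, abs_of_pos h3]
      · rw [← mul_sum]
        have hD : ∑ M ∈ range (3 ^ k), |nt k t M - q t k * pim m M / 3 ^ (k - m)| = Del m k t := rfl
        rw [hD]
        have hD0 := Del_nonneg m k t
        push_cast
        have e : ((w + 1) / (3 : ℝ) ^ k + 1) / w * (3 ^ k * Del m k t) =
            (w + 1 + 3 ^ k) / w * Del m k t := by field_simp
        rw [e]
        have e2 : (w + 1 + 3 ^ k) / w ≤ 6 := by
          rw [div_le_iff₀ hw0]; linarith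
        calc (w + 1 + 3 ^ k) / w * Del m k t ≤ 6 * Del m k t :=
              mul_le_mul_of_nonneg_right e2 hD0
          _ = 2 * (3 * Del m k t) := by ring
    · have h7 : pim m (M + 3 ^ k) = pim m M := by
        have h8 : ∀ j M, pim m (M + 3 ^ m * j) = pim m M := by
          intro j
          induction j with
          | zero => intro M; simp
          | succ j ih =>
            intro M
            rw [Nat.mul_succ, ← add_assoc, hpi, ih]
        have h9 : 3 ^ k = 3 ^ m * 3 ^ (k - m) := by rw [← pow_add]; congr 1; omega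
        rw [h9, h8]
      simp only [hnt, h7]
  · have hmk' : k < m := not_le.1 hmk
    have hq0 := q_nonneg t k
    have hkm : (3 : ℝ) ^ k ≤ 3 ^ m := pow_le_pow_right₀ (by norm_num) hmk'.le
    have hA := per_ej hPe (fun M => 3 ^ k * nt k t M)
      (3 ^ k) Z w hw (fun M => mul_nonneg h3.le (nt_nonneg _ _ _))
      (fun M => by simp only [hnt]) (Nat.one_le_pow _ _ (by norm_num))
    have hB := per_ej hPe (fun M => q t k * (3 ^ m * pim m M))
      (3 ^ m) Z w hw
      (fun M => mul_nonneg (q_nonneg _ _) (mul_nonneg (by positivity) (pim_nonneg _ _)))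
      (fun M => by simp only [hpi]) (Nat.one_le_pow _ _ (by norm_num))
    have hA2 : ((w + 1) / ((3 ^ k : ℕ) : ℝ) + 1) / w * ∑ M ∈ range (3 ^ k), 3 ^ k * nt k t M ≤
        3 * q t k := by
      rw [← mul_sum, hsn]
      push_cast
      have e : ((w + 1) / (3 : ℝ) ^ k + 1) / w * (3 ^ k * q t k) =
          (w + 1 + 3 ^ k) / w * q t k := by field_simp
      rw [e]
      have e2 : (w + 1 + 3 ^ k) / w ≤ 3 := by
        rw [div_le_iff₀ hw0]; linarith
      exact mul_le_mul_of_nonneg_right e2 hq0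
    have hB2 : ((w + 1) / ((3 ^ m : ℕ) : ℝ) + 1) / w *
        ∑ M ∈ range (3 ^ m), q t k * (3 ^ m * pim m M) ≤ 3 * q t k := by
      rw [← mul_sum, ← mul_sum]
      push_cast
      have h5 : ((w + 1) / (3 : ℝ) ^ m + 1) / w * (q t k * (3 ^ m * ∑ M ∈ range (3 ^ m), pim m M)) =
          (w + 1 + 3 ^ m) / w * q t k * ∑ M ∈ range (3 ^ m), pim m M := by field_simp
      rw [h5]
      have e2 : (w + 1 + 3 ^ m) / w ≤ 3 := by
        rw [div_le_iff₀ hw0]; linarith
      have e3 := hsp m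
      have e4 : 0 ≤ ∑ M ∈ range (3 ^ m), pim m M := sum_nonneg fun M _ => pim_nonneg _ _
      calc (w + 1 + 3 ^ m) / w * q t k * ∑ M ∈ range (3 ^ m), pim m M
          ≤ 3 * q t k * 1 := by
            apply mul_le_mul _ e3 e4 (by positivity)
            exact mul_le_mul_of_nonneg_right e2 hq0
        _ = 3 * q t k := mul_one _
    have hA' := le_trans hA hA2
    have hB' := le_trans hB hB2
    refine le_trans (sum_le_sum fun M hM => ?_)
      (le_trans (le_of_eq sum_add_distrib) (le_trans (add_le_add hA' hB') (by linarith)))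
    rw [← add_div]
    refine div_le_div_of_nonneg_right ?_ (Nat.cast_nonneg M)
    have h9 := abs_sub (3 ^ k * nt k t M) (q t k * (3 ^ m * pim m M))
    rw [abs_of_nonneg (mul_nonneg h3.le (nt_nonneg k t M)),
      abs_of_nonneg (mul_nonneg (q_nonneg t k) (mul_nonneg (by positivity) (pim_nonneg m M)))] at h9
    exact h9

/-- the difference for one `y` -/
private lemma diff_ej (z x y : ℝ) (hy : 0 < y) (m : ℕ) (f : ℕ → ℝ) :
    Agz z x y f - Amz z x y m f = ∑ t ∈ range (tz z x y + 1), ∑ M ∈ Icc 1 ⌊z * zr x⌋₊,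
      kz z x M * f M * ∑ k ∈ range (t + 1),
        (3 ^ k * nt k t M - q t k * (3 ^ m * pim m M)) / M *
          gv_ej (2 ^ t * ((M : ℝ) / y) / 3 ^ k) := by
  unfold Agz Amz
  rw [← sum_sub_distrib]
  refine sum_congr rfl fun t _ => ?_
  rw [← sum_sub_distrib]
  refine sum_congr rfl fun M hM => ?_
  have hM1 : 1 ≤ M := (mem_Icc.1 hM).1
  have hM0 : (M : ℝ) ≠ 0 := by
    have : (0 : ℝ) < M := by exact_mod_cast hM1
    exact this.ne'
  rw [Pool.Agent.Helper77.ND.er_group t M (fun k => gg (2 ^ t * M / 3 ^ k / y) / y),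
    mul_assoc (kz z x M * f M), ← mul_sub, mul_sum, ← sum_sub_distrib]
  congr 1
  refine sum_congr rfl fun k _ => ?_
  have hV : (2 : ℝ) ^ t * M / 3 ^ k / y = 2 ^ t * ((M : ℝ) / y) / 3 ^ k := by
    field_simp
  rw [hV]
  unfold gv_ej
  generalize gg (2 ^ t * ((M : ℝ) / y) / 3 ^ k) = g
  field_simp

theorem hEj (hNs : StNs) (hPe : StPe) (hQs : StQs) (hPo : StPo) (hYj : StYj) : StEj := by
  classical
  intro z x w m f hz hx hw hf hfs hmw hT
  set T : ℕ := t1 x (x ^ (106 / 100 : ℝ)) with hTdef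
  set κ : ℝ := rho / (Real.log x / 100) with hκ
  have hx1 : 1 < x := by
    have := Real.add_one_le_exp (200 : ℝ)
    linarith
  have hx0 : 0 < x := by linarith
  have hz0 : 0 < z := by linarith
  have hw0 : 0 < w := by linarith
  have hrho : 0 < rho := by
    unfold rho
    have := Real.log_pos (show (1 : ℝ) < 4 / 3 by norm_num)
    linarith
  have hκ0 : 0 ≤ κ := by
    rw [hκ]
    have := Real.log_pos hx1
    positivity
  have hkz : ∀ M, 0 ≤ kz z x M ∧ kz z x M ≤ κ := by
    intro M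
    unfold kz
    split_ifs
    · exact ⟨hκ0, le_refl _⟩
    · exact ⟨le_refl _, hκ0⟩
  obtain ⟨hyj, -, -⟩ := hYj z x hz hx
  set Y : ℝ := z * x ^ (105 / 100 : ℝ) with hY
  have hY0 : 0 < Y := by positivity
  have hyjY : ∀ j : ℕ, yj z x j = Y * Real.exp j := fun j => rfl
  have hyj0 : ∀ j : ℕ, 0 < yj z x j := fun j => by rw [hyjY]; positivity
  set Z : ℕ := ⌊z * zr x⌋₊ with hZ
  set F : Finset ℕ := (Icc 1 Z).filter (fun M : ℕ => w ≤ M ∧ (M : ℝ) ≤ 2 * w) with hF
  -- abbreviations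
  set E : ℕ → ℕ → ℕ → ℝ := fun t M k =>
    |3 ^ k * nt k t M - q t k * (3 ^ m * pim m M)| / M with hE
  have hE0 : ∀ t M k, 0 ≤ E t M k := fun t M k => div_nonneg (abs_nonneg _) (Nat.cast_nonneg _)
  set V : ℕ → ℕ → ℕ → ℕ → ℝ := fun j t M k => 2 ^ t * ((M : ℝ) / yj z x j) / 3 ^ k with hV
  -- one `y`
  have hone : ∀ j ∈ range (Jn x), |Agz z x (yj z x j) f - Amz z x (yj z x j) m f| ≤
      κ * ∑ t ∈ range (T + 1), ∑ M ∈ F, ∑ k ∈ range (t + 1), E t M k * gv_ej (V j t M k) := by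
    intro j hj
    have htz : tz z x (yj z x j) ≤ T := (hyj j (mem_range.1 hj)).2
    rw [diff_ej z x _ (hyj0 j) m f]
    refine (abs_sum_le_sum_abs _ _).trans ?_
    have h1 : ∀ t, |∑ M ∈ Icc 1 Z, kz z x M * f M * ∑ k ∈ range (t + 1),
        (3 ^ k * nt k t M - q t k * (3 ^ m * pim m M)) / M *
          gv_ej (2 ^ t * ((M : ℝ) / yj z x j) / 3 ^ k)| ≤
        κ * ∑ M ∈ F, ∑ k ∈ range (t + 1), E t M k * gv_ej (V j t M k) := by
      intro t
      refine (abs_sum_le_sum_abs _ _).trans ?_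
      rw [hF, sum_filter, mul_sum]
      refine sum_le_sum fun M _ => ?_
      by_cases hfM : f M = 0
      · rw [hfM]
        simp only [mul_zero, zero_mul, abs_zero]
        apply mul_nonneg hκ0
        split_ifs
        · exact sum_nonneg fun k _ => mul_nonneg (hE0 _ _ _) (gv_nonneg_ej hPo _)
        · exact le_refl _
      · rw [if_pos (hfs M hfM), abs_mul]
        have hk := hkz M
        have hfM1 := hf M
        apply mul_le_mul
        · rw [abs_of_nonneg (mul_nonneg hk.1 hfM1.1)]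
          calc kz z x M * f M ≤ κ * 1 := mul_le_mul hk.2 hfM1.2 hfM1.1 hκ0
            _ = κ := mul_one κ
        · refine le_trans (abs_sum_le_sum_abs _ _) (sum_le_sum fun k _ => ?_)
          rw [abs_mul, abs_div, Nat.abs_cast, abs_of_nonneg (gv_nonneg_ej hPo _)]
        · exact abs_nonneg _
        · exact hκ0
    refine (sum_le_sum fun t _ => h1 t).trans ?_
    rw [mul_sum]
    apply sum_le_sum_of_subset_of_nonneg
    · intro t ht
      rw [mem_range] at ht ⊢
      omega
    · intro t _ _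
      refine mul_nonneg hκ0 (sum_nonneg fun M _ => sum_nonneg fun k _ => ?_)
      exact mul_nonneg (hE0 _ _ _) (gv_nonneg_ej hPo _)
  refine (abs_sum_le_sum_abs _ _).trans ((sum_le_sum hone).trans ?_)
  rw [← mul_sum]
  refine mul_le_mul_of_nonneg_left ?_ hκ0
  -- interchange
  have hswap : ∑ j ∈ range (Jn x), ∑ t ∈ range (T + 1), ∑ M ∈ F, ∑ k ∈ range (t + 1),
      E t M k * gv_ej (V j t M k) =
      ∑ t ∈ range (T + 1), ∑ k ∈ range (t + 1), ∑ M ∈ F,
        E t M k * ∑ j ∈ range (Jn x), gv_ej (V j t M k) := by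
    rw [sum_comm]
    refine sum_congr rfl fun t _ => ?_
    rw [sum_comm]
    simp_rw [mul_sum]
    rw [sum_comm (s := range (t + 1)) (t := F)]
    refine sum_congr rfl fun M _ => ?_
    rw [sum_comm]
  rw [hswap]
  have hcell : ∀ t ∈ range (T + 1), ∀ k ∈ range (t + 1), ∑ M ∈ F,
      E t M k * ∑ j ∈ range (Jn x), gv_ej (V j t M k) ≤ erj_ej m k t := by
    intro t ht k _
    have htT : t ≤ T := by rw [mem_range] at ht; omega
    by_cases hkw : (3 : ℝ) ^ k ≤ 4 * w
    · have h1 : ∀ M ∈ F, E t M k * ∑ j ∈ range (Jn x), gv_ej (V j t M k) ≤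
          E t M k * (1 / 2) := by
        intro M hM
        refine mul_le_mul_of_nonneg_left ?_ (hE0 _ _ _)
        have hM1 : 1 ≤ M := (mem_Icc.1 (mem_filter.1 hM).1).1
        have hM0 : (0 : ℝ) < M := by exact_mod_cast hM1
        have hv : ∀ j : ℕ, V j t M k = (2 ^ t * ((M : ℝ) / Y) / 3 ^ k) * Real.exp (-(j : ℝ)) := by
          intro j
          rw [hV]
          simp only
          rw [hyjY, Real.exp_neg]
          have := (Real.exp_pos (j : ℝ)).ne'
          field_simp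
        simp_rw [hv]
        exact geo_ej hPo _ _ (by positivity)
      refine (sum_le_sum h1).trans ?_
      rw [← sum_mul]
      have := cell_ej hNs hPe m k t Z w hw hmw hkw
      have h2 : ∑ M ∈ F, E t M k ≤ 2 * erj_ej m k t := this
      linarith
    · have h0 : ∑ M ∈ F, E t M k * ∑ j ∈ range (Jn x), gv_ej (V j t M k) = 0 := by
        refine sum_eq_zero fun M hM => ?_
        rw [sum_eq_zero, mul_zero]
        intro j _
        apply gv_lo_ej hPo
        have hM2 := (mem_filter.1 hM).2.2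
        have h2t : (2 : ℝ) ^ t ≤ yj z x j := by
          have a1 : (2 : ℝ) ^ t ≤ 2 ^ T := pow_le_pow_right₀ (by norm_num) htT
          have a2 : x ^ (1 / 4 : ℝ) ≤ x ^ (105 / 100 : ℝ) :=
            Real.rpow_le_rpow_of_exponent_le hx1.le (by norm_num)
          have a3 : x ^ (105 / 100 : ℝ) ≤ Y := by
            rw [hY]
            exact le_mul_of_one_le_left (by positivity) hz
          have a4 : Y ≤ yj z x j := by
            rw [hyjY]
            exact le_mul_of_one_le_right hY0.le (Real.one_le_exp (Nat.cast_nonneg _))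
          linarith
        have hkw' : 4 * w < 3 ^ k := not_le.1 hkw
        have h3k : (0 : ℝ) < 3 ^ k := by positivity
        have hy := hyj0 j
        rw [hV]
        simp only
        rw [div_le_div_iff₀ h3k (by norm_num), mul_div_assoc', div_mul_eq_mul_div, div_le_iff₀ hy]
        have h5 : (2 : ℝ) ^ t * M ≤ yj z x j * (2 * w) :=
          mul_le_mul h2t hM2 (Nat.cast_nonneg _) hy.le
        nlinarith
      rw [h0]
      exact erj_nonneg_ej _ _ _
  have hrow : ∀ t ∈ range (T + 1), ∑ k ∈ range (t + 1), ∑ M ∈ F,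
      E t M k * ∑ j ∈ range (Jn x), gv_ej (V j t M k) ≤
      3 * ∑ k ∈ Icc m t, Del m k t + 3 * ∑ k ∈ range m, q t k := fun t ht =>
    (sum_le_sum (hcell t ht)).trans (row_ej m t)
  refine (sum_le_sum hrow).trans ?_
  rw [sum_add_distrib, ← mul_sum, ← mul_sum, sum_comm (s := range (T + 1)) (t := range m)]
  have h7 : ∑ k ∈ range m, ∑ t ∈ range (T + 1), q t k ≤ ∑ k ∈ range m, (2 : ℝ) :=
    sum_le_sum fun k _ => hQs.2.1 k _
  rw [sum_const, card_range, nsmul_eq_mul] at h7
  have hm0 : (0 : ℝ) ≤ m := Nat.cast_nonneg m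
  linarith

end Pool.Agent.Helper24.PRD
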