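import Pool.Agent.Helper76.DE.StL

/-!
# Project DE, module Liz
-/

set_option autoImplicit false

noncomputable section

namespace Pool.Agent.Helper24.PRD

open Pool.Agent.Helper76.ND Pool.Agent.Helper76.DE Finset

private lemma card_cls_liz (k t c n : ℕ) :
    ((Icc 1 n).filter (fun M => 3 ^ k ∣ 2 ^ t * M + c)).card ≤ n / 3 ^ k + 1 := by
  have h3 : 0 < 3 ^ k := by positivity
  refine (Finset.card_le_card_of_injOn (fun M => M / 3 ^ k) (t := range (n / 3 ^ k + 1))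
    ?_ ?_).trans (by simp)
  · intro M hM
    simp only [coe_filter, mem_Icc, Set.mem_ofPred_eq] at hM
    simp only [coe_range, Set.mem_Iio]
    exact Nat.lt_succ_of_le (Nat.div_le_div_right hM.1.2)
  · intro M hM N hN hMN
    simp only [coe_filter, mem_Icc, Set.mem_ofPred_eq] at hM hN
    simp only at hMN
    have h1 : 2 ^ t * M + c ≡ 2 ^ t * N + c [MOD 3 ^ k] :=
      ((Nat.modEq_zero_iff_dvd).2 hM.2).trans ((Nat.modEq_zero_iff_dvd).2 hN.2).symm
    have h2 : 2 ^ t * M ≡ 2 ^ t * N [MOD 3 ^ k] := Nat.ModEq.add_right_cancel' c h1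
    have h4 : M ≡ N [MOD 3 ^ k] := by
      refine Nat.ModEq.cancel_left_of_coprime ?_ h2
      exact Nat.Coprime.pow _ _ (by norm_num)
    have h5 : M % 3 ^ k = N % 3 ^ k := h4
    rw [← Nat.div_add_mod M (3 ^ k), ← Nat.div_add_mod N (3 ^ k), hMN, h5]

private lemma mu_eq_liz (y : ℝ) (t M : ℕ) (l : List Bool) (h : 3 ^ hd l ∣ 2 ^ t * M + cc l) :
    mu y ((2 ^ t * M + cc l) / 3 ^ hd l) =
      gg (2 ^ t * M / 3 ^ hd l / y + cc l / 3 ^ hd l / y) / y := by
  unfold mu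
  rw [Nat.cast_div h (by positivity)]
  congr 2
  push_cast
  ring

private lemma d_zero_liz (hPo : StPo) (y : ℝ) (hy : 0 < y) (t M : ℕ) (l : List Bool)
    (h : 3 ^ hd l ∣ 2 ^ t * M + cc l) (hV : 3 / 2 ≤ 2 ^ t * (M : ℝ) / 3 ^ hd l / y) :
    |mu y ((2 ^ t * M + cc l) / 3 ^ hd l) - gg (2 ^ t * M / 3 ^ hd l / y) / y| = 0 := by
  obtain ⟨-, -, -, h4, -⟩ := hPo
  rw [mu_eq_liz y t M l h, h4 _ hV, h4 _ (hV.trans (le_add_of_nonneg_right (by positivity)))]
  simp

private lemma d_bad_liz (hPo : StPo) (y : ℝ) (hy : 0 < y) (t M : ℕ) (l : List Bool)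
    (h : 3 ^ hd l ∣ 2 ^ t * M + cc l) :
    |mu y ((2 ^ t * M + cc l) / 3 ^ hd l) - gg (2 ^ t * M / 3 ^ hd l / y) / y| ≤
      1 / 4 / y := by
  obtain ⟨-, h2, -⟩ := hPo
  rw [mu_eq_liz y t M l h, ← sub_div, abs_div, abs_of_pos hy]
  refine div_le_div_of_nonneg_right ?_ hy.le
  have a := h2 (2 ^ t * M / 3 ^ hd l / y + cc l / 3 ^ hd l / y)
  have b := h2 (2 ^ t * M / 3 ^ hd l / y)
  rw [abs_le]
  constructor <;> linarith [a.1, a.2.1, b.1, b.2.1]

private lemma d_good_liz (hPo : StPo) (y : ℝ) (hy : 0 < y) (t M : ℕ) (l : List Bool)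
    (h : 3 ^ hd l ∣ 2 ^ t * M + cc l) :
    |mu y ((2 ^ t * M + cc l) / 3 ^ hd l) - gg (2 ^ t * M / 3 ^ hd l / y) / y| ≤
      2 * (cc l / 3 ^ hd l) / y / y := by
  obtain ⟨-, -, -, -, h5, -⟩ := hPo
  rw [mu_eq_liz y t M l h, ← sub_div, abs_div, abs_of_pos hy]
  refine div_le_div_of_nonneg_right ?_ hy.le
  refine (h5 _ _).trans ?_
  rw [add_sub_cancel_left, abs_of_nonneg (by positivity)]
  apply le_of_eq
  ring

/-- sum over `M` for a fixed word -/
private lemma sum_M_liz (hPo : StPo) (y : ℝ) (hy : 0 < y) (t Z : ℕ) (l : List Bool) (e : ℝ)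
    (h2 : (2 : ℝ) ^ t ≤ y)
    (he : ∀ M : ℕ, 3 ^ hd l ∣ 2 ^ t * M + cc l →
      |mu y ((2 ^ t * M + cc l) / 3 ^ hd l) - gg (2 ^ t * M / 3 ^ hd l / y) / y| ≤ e)
    (he0 : 0 ≤ e) :
    ∑ M ∈ (Icc 1 Z).filter (fun M => 3 ^ hd l ∣ 2 ^ t * M + cc l),
      |mu y ((2 ^ t * M + cc l) / 3 ^ hd l) - gg (2 ^ t * M / 3 ^ hd l / y) / y| ≤
      e * (5 / 2 * y / 2 ^ t) := by
  classical
  set n : ℕ := ⌊3 / 2 * y * 3 ^ hd l / 2 ^ t⌋₊ with hn
  have hsplit : ∑ M ∈ (Icc 1 Z).filter (fun M => 3 ^ hd l ∣ 2 ^ t * M + cc l),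
      |mu y ((2 ^ t * M + cc l) / 3 ^ hd l) - gg (2 ^ t * M / 3 ^ hd l / y) / y| ≤
      ∑ M ∈ (Icc 1 n).filter (fun M => 3 ^ hd l ∣ 2 ^ t * M + cc l), e := by
    rw [← sum_filter_add_sum_filter_not ((Icc 1 Z).filter _) (fun M => M ≤ n)]
    have hz : ∑ M ∈ ((Icc 1 Z).filter (fun M => 3 ^ hd l ∣ 2 ^ t * M + cc l)).filter
        (fun M => ¬ M ≤ n),
        |mu y ((2 ^ t * M + cc l) / 3 ^ hd l) - gg (2 ^ t * M / 3 ^ hd l / y) / y| = 0 := by
      refine sum_eq_zero fun M hM => ?_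
      simp only [mem_filter, mem_Icc, not_le] at hM
      refine d_zero_liz hPo y hy t M l hM.1.2 ?_
      have h := Nat.lt_of_floor_lt hM.2
      rw [le_div_iff₀ hy, le_div_iff₀ (by positivity)]
      rw [div_lt_iff₀ (by positivity)] at h
      linarith
    rw [hz, add_zero]
    refine (sum_le_sum (g := fun _ => e) ?_).trans ?_
    · intro M hM
      simp only [mem_filter, mem_Icc] at hM
      exact he M hM.1.2
    · refine sum_le_sum_of_subset_of_nonneg ?_ fun _ _ _ => he0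
      intro M hM
      simp only [mem_filter, mem_Icc] at hM ⊢
      exact ⟨⟨hM.1.1.1, hM.2⟩, hM.1.2⟩
  refine hsplit.trans ?_
  rw [sum_const, nsmul_eq_mul, mul_comm]
  refine mul_le_mul_of_nonneg_left ?_ he0
  have hc : (((Icc 1 n).filter (fun M => 3 ^ hd l ∣ 2 ^ t * M + cc l)).card : ℝ) ≤
      ((n / 3 ^ hd l + 1 : ℕ) : ℝ) := by exact_mod_cast card_cls_liz (hd l) t (cc l) n
  refine hc.trans ?_
  push_cast
  have h3 : ((n / 3 ^ hd l : ℕ) : ℝ) ≤ (n : ℝ) / 3 ^ hd l := by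
    have := @Nat.cast_div_le ℝ _ _ _ n (3 ^ hd l)
    simpa using this
  have h4 : (n : ℝ) ≤ 3 / 2 * y * 3 ^ hd l / 2 ^ t := Nat.floor_le (by positivity)
  have h5 : (n : ℝ) / 3 ^ hd l ≤ 3 / 2 * y / 2 ^ t := by
    rw [div_le_iff₀ (by positivity)]
    refine h4.trans (le_of_eq ?_)
    ring
  have h6 : 1 ≤ y / 2 ^ t := by rw [le_div_iff₀ (by positivity)]; linarith
  have h7 : 5 / 2 * y / 2 ^ t = 3 / 2 * y / 2 ^ t + y / 2 ^ t := by ring
  rw [h7]
  linarith

/-- sum over words and `M` -/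
private lemma sum_t_liz (hPo : StPo) (y : ℝ) (hy : 0 < y) (t Z : ℕ) (D G β : ℝ)
    (h2 : (2 : ℝ) ^ t ≤ y) (hG0 : 0 ≤ G)
    (hG : ∀ l ∈ W t, Gd D l → (cc l : ℝ) / 3 ^ hd l ≤ G)
    (hβ : (∑ l ∈ W t, open Classical in if Gd D l then (0 : ℝ) else 1) ≤ β * 2 ^ t) :
    ∑ M ∈ Icc 1 Z, ∑ l ∈ (W t).filter (fun l => 3 ^ hd l ∣ 2 ^ t * M + cc l),
      |mu y ((2 ^ t * M + cc l) / 3 ^ hd l) - gg (2 ^ t * M / 3 ^ hd l / y) / y| ≤
      5 * G / y + 5 / 8 * β := by
  classical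
  have hswap : ∑ M ∈ Icc 1 Z, ∑ l ∈ (W t).filter (fun l => 3 ^ hd l ∣ 2 ^ t * M + cc l),
      |mu y ((2 ^ t * M + cc l) / 3 ^ hd l) - gg (2 ^ t * M / 3 ^ hd l / y) / y| =
      ∑ l ∈ W t, ∑ M ∈ (Icc 1 Z).filter (fun M => 3 ^ hd l ∣ 2 ^ t * M + cc l),
      |mu y ((2 ^ t * M + cc l) / 3 ^ hd l) - gg (2 ^ t * M / 3 ^ hd l / y) / y| := by
    simp only [sum_filter]
    exact sum_comm
  rw [hswap]
  have hl : ∀ l ∈ W t, ∑ M ∈ (Icc 1 Z).filter (fun M => 3 ^ hd l ∣ 2 ^ t * M + cc l),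
      |mu y ((2 ^ t * M + cc l) / 3 ^ hd l) - gg (2 ^ t * M / 3 ^ hd l / y) / y| ≤
      5 * G / y / 2 ^ t + (if Gd D l then (0 : ℝ) else 1) * (5 / 8 / 2 ^ t) := by
    intro l hlW
    by_cases hg : Gd D l
    · rw [if_pos hg, zero_mul, add_zero]
      refine (sum_M_liz hPo y hy t Z l (2 * G / y / y) h2 ?_ (by positivity)).trans ?_
      · intro M hM
        refine (d_good_liz hPo y hy t M l hM).trans ?_
        have := hG l hlW hg
        gcongr
      · apply le_of_eq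
        field_simp
    · rw [if_neg hg, one_mul]
      refine (sum_M_liz hPo y hy t Z l (1 / 4 / y) h2 ?_ (by positivity)).trans ?_
      · intro M hM
        exact d_bad_liz hPo y hy t M l hM
      · have : 1 / 4 / y * (5 / 2 * y / 2 ^ t) = 5 / 8 / 2 ^ t := by
          field_simp
          norm_num
        rw [this]
        exact le_add_of_nonneg_left (by positivity)
  refine (sum_le_sum hl).trans ?_
  rw [sum_add_distrib, ← sum_mul, sum_const, card_W, nsmul_eq_mul]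
  have e1 : ((2 ^ t : ℕ) : ℝ) * (5 * G / y / 2 ^ t) = 5 * G / y := by
    push_cast
    field_simp
  rw [e1]
  have e2 : β * 2 ^ t * (5 / 8 / 2 ^ t) = 5 / 8 * β := by field_simp
  have e3 : (∑ l ∈ W t, if Gd D l then (0 : ℝ) else 1) * (5 / 8 / 2 ^ t) ≤
      β * 2 ^ t * (5 / 8 / 2 ^ t) := mul_le_mul_of_nonneg_right hβ (by positivity)
  rw [e2] at e3
  linarith

private lemma log3_liz : Real.log 3 ≤ 6 / 5 := by
  have h : (3 : ℝ) = 2 * (3 / 2) := by norm_num
  rw [h, Real.log_mul (by norm_num) (by norm_num)]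
  have h1 := Real.log_le_sub_one_of_pos (show (0 : ℝ) < 3 / 2 by norm_num)
  have h2 := Real.log_two_lt_d9
  linarith

/-- `L³ 3^D / e^L` is bounded -/
private lemma an1_liz (u : ℝ) (hu : 0 ≤ u) :
    (u ^ 3) ^ 3 * Real.exp (u ^ 2 * Real.log 3) ≤ 48 * Real.exp 2 * Real.exp (u ^ 3) := by
  have h1 : u ^ 2 * Real.log 3 ≤ 2 + u ^ 3 / 2 := by
    have h := mul_le_mul_of_nonneg_left log3_liz (sq_nonneg u)
    nlinarith [mul_nonneg hu (sq_nonneg (u - 8 / 5)), sq_nonneg (u - 8 / 5)]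
  have h2 : (u ^ 3) ^ 3 ≤ 48 * Real.exp (u ^ 3 / 2) := by
    have := Real.pow_div_factorial_le_exp (u ^ 3 / 2) (by positivity) 3
    simp only [Nat.factorial] at this
    push_cast at this
    nlinarith
  calc (u ^ 3) ^ 3 * Real.exp (u ^ 2 * Real.log 3)
      ≤ (48 * Real.exp (u ^ 3 / 2)) * Real.exp (2 + u ^ 3 / 2) := by
        gcongr
    _ = 48 * Real.exp 2 * Real.exp (u ^ 3) := by
        rw [mul_assoc, ← Real.exp_add, mul_assoc, ← Real.exp_add]
        congr 2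
        ring

private lemma an2_liz (u : ℝ) (hu : 0 ≤ u) : (u ^ 3) ^ 3 * Real.exp (-(4 * u)) ≤ 2 := by
  have := Real.pow_div_factorial_le_exp (4 * u) (by positivity) 9
  simp only [Nat.factorial] at this
  push_cast at this
  rw [Real.exp_neg, mul_inv_le_iff₀ (Real.exp_pos _)]
  have h9 : 0 ≤ u ^ 9 := by positivity
  nlinarith

theorem hLiz (hBd : StBd) (hDr : StDr) (hPr : StPr) (hPo : StPo) : StLiz := by
  classical
  obtain ⟨x0, hx0, hP⟩ := hPr
  refine ⟨x0, 30 * (120 * Real.exp 2 + 2), hx0, by positivity, ?_⟩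
  intro z x y f hx hYZ hf
  obtain ⟨hz1, hY⟩ := hYZ
  obtain ⟨hL1, hxy', ht1, htL, h2t, -, -, hgam, -, hrho, -, -, -, -⟩ := hP x (y / z) hx hY
  have hx1 : 0 < x := by linarith
  have hz0 : 0 < z := by linarith
  have hyz : 0 < y / z := by linarith
  have hy : 0 < y := by
    have := mul_pos hyz hz0
    rwa [div_mul_cancel₀ _ hz0.ne'] at this
  have hyle : y / z ≤ y := div_le_self hy.le hz1
  have hxy : x ≤ y := hxy'.trans hyle
  have htz : t1 x (y / z) = tz z x y := rfl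
  rw [htz] at htL h2t hgam
  set L : ℝ := Real.log x with hLdef
  set T : ℕ := tz z x y with hTdef
  set D : ℝ := L ^ (2 / 3 : ℝ) with hDdef
  set u : ℝ := L ^ (1 / 3 : ℝ) with hudef
  have hL0 : 0 < L := by linarith
  have hu0 : 0 ≤ u := by positivity
  have hu3 : u ^ 3 = L := by
    rw [hudef, ← Real.rpow_natCast, ← Real.rpow_mul hL0.le]
    norm_num
  have hu2 : u ^ 2 = D := by
    rw [hudef, hDdef, ← Real.rpow_natCast, ← Real.rpow_mul hL0.le]
    norm_num
  have hD0 : 0 ≤ D := by positivity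
  have hrho0 : 0 < rho := by
    unfold rho
    have : 0 < Real.log (4 / 3) := Real.log_pos (by norm_num)
    linarith
  set κ : ℝ := rho / (L / 100) with hκdef
  have hκ0 : 0 ≤ κ := by positivity
  have hkap : ∀ M : ℕ, 0 ≤ kz z x M ∧ kz z x M ≤ κ := by
    intro M
    unfold kz
    split_ifs
    · exact ⟨by positivity, le_refl _⟩
    · exact ⟨le_refl _, hκ0⟩
  -- the bound for each `t`
  set G : ℝ := L / 2 * x ^ (1 / 20 : ℝ) * 3 ^ D with hGdef
  set β : ℝ := L * Real.exp (-(4 * u)) with hβdef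
  have hG0 : 0 ≤ G := by positivity
  have hβ0 : 0 ≤ β := by positivity
  have hs3 : 1 ≤ 2 / Real.sqrt 3 := by
    rw [le_div_iff₀ (by positivity), one_mul]
    rw [Real.sqrt_le_left (by norm_num)]
    norm_num
  have hR : ∀ t ∈ range (T + 1), ∑ M ∈ Icc 1 ⌊z * zr x⌋₊,
      ∑ l ∈ (W t).filter (fun l => 3 ^ hd l ∣ 2 ^ t * M + cc l),
      |mu y ((2 ^ t * M + cc l) / 3 ^ hd l) - gg (2 ^ t * M / 3 ^ hd l / y) / y| ≤
      5 * G / y + 5 / 8 * β := by
    intro t ht
    have htT : t ≤ T := by simpa [Nat.lt_succ_iff] using ht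
    have htT' : (t : ℝ) ≤ T := by exact_mod_cast htT
    refine sum_t_liz hPo y hy t _ D G β ?_ hG0 ?_ ?_
    · calc (2 : ℝ) ^ t ≤ 2 ^ T := pow_le_pow_right₀ (by norm_num) htT
        _ ≤ x ^ (1 / 4 : ℝ) := h2t
        _ ≤ x ^ (1 : ℝ) := Real.rpow_le_rpow_of_exponent_le (by linarith) (by norm_num)
        _ = x := Real.rpow_one x
        _ ≤ y := hxy
    · intro l hl hg
      rw [mem_W] at hl
      have h := hDr l D hD0 hg
      rw [hl] at h
      rw [div_le_iff₀ (by positivity), mul_comm]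
      refine h.trans ?_
      refine mul_le_mul_of_nonneg_left ?_ (by positivity)
      rw [hGdef]
      refine mul_le_mul_of_nonneg_right ?_ (by positivity)
      refine mul_le_mul (htT'.trans htL) ?_ (by positivity) (by positivity)
      exact (pow_le_pow_right₀ hs3 htT).trans hgam
    · rcases Nat.eq_zero_or_pos t with h0 | h0
      · subst h0
        rw [sum_W_zero]
        rw [if_pos]
        · positivity
        · intro j hj
          have hj0 : j = 0 := by simpa using hj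
          subst hj0
          simp [hd, hD0]
      · have h := hBd t D h0 hD0
        have hcard : (∑ l ∈ W t, if Gd D l then (0 : ℝ) else 1) =
            (((W t).filter (fun l => ¬ Gd D l)).card : ℝ) := by
          rw [card_filter]
          push_cast
          refine sum_congr rfl fun l _ => ?_
          by_cases hg : Gd D l <;> simp [hg]
        rw [hcard]
        refine h.trans ?_
        rw [hβdef]
        have ht0 : (0 : ℝ) < t := by exact_mod_cast h0
        have e1 : 4 * u ≤ 2 * D ^ 2 / t := by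
          rw [le_div_iff₀ ht0]
          have e2 : 2 * D ^ 2 = 2 * u * L := by rw [← hu2, ← hu3]; ring
          rw [e2]
          have e3 : (t : ℝ) ≤ L / 2 := htT'.trans htL
          nlinarith
        have e4 : Real.exp (-(2 * D ^ 2 / t)) ≤ Real.exp (-(4 * u)) := by
          apply Real.exp_le_exp.2
          linarith
        have e5 : (2 * (t : ℝ)) ≤ L := by linarith [htT'.trans htL]
        calc 2 * (t : ℝ) * 2 ^ t * Real.exp (-(2 * D ^ 2 / t))
            ≤ L * 2 ^ t * Real.exp (-(4 * u)) := by gcongr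
          _ = L * Real.exp (-(4 * u)) * 2 ^ t := by ring
  -- the difference
  have hdiff : |Awz z x y f - Agz z x y f| ≤ ∑ t ∈ range (T + 1), κ * (5 * G / y + 5 / 8 * β) := by
    unfold Awz Agz
    rw [← sum_sub_distrib]
    refine (abs_sum_le_sum_abs _ _).trans (sum_le_sum fun t ht => ?_)
    rw [← sum_sub_distrib]
    refine (abs_sum_le_sum_abs _ _).trans ?_
    refine le_trans ?_ (mul_le_mul_of_nonneg_left (hR t ht) hκ0)
    rw [mul_sum]
    refine sum_le_sum fun M _ => ?_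
    rw [← mul_sub, abs_mul, ← sum_sub_distrib]
    refine mul_le_mul ?_ (abs_sum_le_sum_abs _ _) (abs_nonneg _) hκ0
    rw [abs_of_nonneg (mul_nonneg (hkap M).1 (hf M).1)]
    calc kz z x M * f M ≤ κ * 1 := mul_le_mul (hkap M).2 (hf M).2 (hf M).1 hκ0
      _ = κ := mul_one κ
  refine hdiff.trans ?_
  rw [sum_const, card_range, nsmul_eq_mul]
  have hκT : ((T + 1 : ℕ) : ℝ) * κ ≤ 30 := by
    rw [hκdef]
    push_cast
    have : ((T : ℝ) + 1) * (rho / (L / 100)) = ((T : ℝ) + 1) * (100 * rho) / L := by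
      field_simp
    rw [this, div_le_iff₀ hL0]
    have h1 : (T : ℝ) + 1 ≤ 3 / 2 * L := by linarith
    have h2 : 100 * rho ≤ 20 := by linarith
    calc ((T : ℝ) + 1) * (100 * rho) ≤ (3 / 2 * L) * 20 := by gcongr
      _ = 30 * L := by ring
  rw [← mul_assoc]
  have hL2 : 0 < L ^ 2 := by positivity
  have hmain : 5 * G / y + 5 / 8 * β ≤ (120 * Real.exp 2 + 2) / L ^ 2 := by
    have a1 : 5 * G / y ≤ 120 * Real.exp 2 / L ^ 2 := by
      have hyx : x ^ (105 / 100 : ℝ) ≤ y := hY.1.trans hyle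
      have hxe : x = Real.exp (u ^ 3) := by rw [hu3, hLdef, Real.exp_log hx1]
      have h3D : (3 : ℝ) ^ D = Real.exp (u ^ 2 * Real.log 3) := by
        rw [hu2, Real.rpow_def_of_pos (by norm_num), mul_comm]
      have h105 : x ^ (105 / 100 : ℝ) = x * x ^ (1 / 20 : ℝ) := by
        nth_rw 2 [← Real.rpow_one x]
        rw [← Real.rpow_add hx1]
        norm_num
      have hx20 : 0 < x ^ (1 / 20 : ℝ) := by positivity
      have b1 : 5 * G / y ≤ 5 * G / (x * x ^ (1 / 20 : ℝ)) := by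
        refine div_le_div_of_nonneg_left (by positivity) (by positivity) ?_
        rw [← h105]; exact hyx
      refine b1.trans ?_
      have b2 : 5 * G / (x * x ^ (1 / 20 : ℝ)) = 5 / 2 * L * 3 ^ D / x := by
        rw [hGdef]
        field_simp
      rw [b2, div_le_div_iff₀ hx1 hL2]
      have b3 := an1_liz u hu0
      rw [hu3, ← h3D, ← hu3, ← hxe, hu3] at b3
      nlinarith
    have a2 : 5 / 8 * β ≤ 2 / L ^ 2 := by
      rw [le_div_iff₀ hL2, hβdef]
      have b3 := an2_liz u hu0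
      rw [hu3] at b3
      have e : 5 / 8 * (L * Real.exp (-(4 * u))) * L ^ 2 =
          5 / 8 * (L ^ 3 * Real.exp (-(4 * u))) := by ring
      rw [e]
      linarith
    rw [add_div]
    linarith
  calc ((T + 1 : ℕ) : ℝ) * κ * (5 * G / y + 5 / 8 * β)
      ≤ 30 * ((120 * Real.exp 2 + 2) / L ^ 2) := by
        refine mul_le_mul hκT hmain (by positivity) (by norm_num)
    _ = 30 * (120 * Real.exp 2 + 2) / L ^ 2 := by ring

end Pool.Agent.Helper24.PRD
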